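import Pool.Agent.H22.AN.TB3

/-! Moments of windows in the directions of the plane (row MA3 of the board allh, helper53). -/

set_option autoImplicit false

namespace Pool.Agent.H53.AN

open MeasureTheory Metric Set Filter Topology Pool.Agent.H87.SN Pool.Agent.H87.SH Pool.Agent.H87.AX
open Pool.Agent.H22.AN
open scoped ContDiff RealInnerProductSpace ENNReal

theorem pf_MA3 (hCNS : T_CNS) (hBWP : T_BWP) : T_MA3 := by
  intro d
  obtain ⟨C₁, hC₁, H1⟩ := hCNS d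
  obtain ⟨C₂, hC₂, H2⟩ := hBWP d
  refine ⟨C₁ * C₂, by positivity, ?_⟩
  intro m G hG hS h Z τ hh0 hh1 hτ hZ z₀ t a hτt hzt
  have ht : 0 < t := hτ.trans_le hτt
  have ht1 : t ≤ 1 := by linarith [norm_nonneg z₀]
  have hZ0 : 0 < Z := by linarith [norm_nonneg z₀]
  obtain ⟨-, φ, hφ3, hφ0, hφB, hφ1, hφ2, hφa, -, -⟩ := H2 z₀ t ht
  have h1 := (H1 m G hG hS h Z hh0 hh1 hZ0 hZ).1 φ (C₂ / t ^ d) (C₂ / t ^ (d + 1)) a
    (hφ3.of_le (by norm_num)) (fun z hz => hφ0 z (by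
      have := norm_sub_norm_le z z₀
      linarith)) hφB hφ1
  have h2 : mz G h a z₀ t = t ^ 2 *
      ∫ x in ball (0 : V d) 2, chh h x * fderiv ℝ φ (zp x) (bv a) * nsq (G x) := by
    unfold mz
    rw [← integral_const_mul]
    refine integral_congr_ae (Filter.Eventually.of_forall (fun x => ?_))
    have h3 : bw z₀ t (zp x) * (zp x a - z₀ a) = t ^ 2 * fderiv ℝ φ (zp x) (bv a) := by
      rw [hφa]; ring
    show chh h x * (bw z₀ t (zp x) * (zp x a - z₀ a)) * nsq (G x) =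
      t ^ 2 * (chh h x * fderiv ℝ φ (zp x) (bv a) * nsq (G x))
    rw [h3]; ring
  have hEz : 0 ≤ Ez G h Z :=
    integral_nonneg (fun _ => Finset.sum_nonneg (fun _ _ => sq_nonneg _))
  have hIn : 0 ≤ In G h Z :=
    integral_nonneg (fun _ => Finset.sum_nonneg (fun _ _ => sq_nonneg _))
  have ht2 : t ^ 2 ≤ 1 := pow_le_one₀ ht.le ht1
  have hh : h ≤ 1 := by linarith
  have e1 : t ^ 2 * (C₂ / t ^ (d + 1)) ≤ C₂ / (τ ^ (d + 2) * h) := by
    rw [← mul_div_assoc, div_le_div_iff₀ (by positivity) (by positivity)]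
    have hp1 : τ ^ (d + 2) ≤ t ^ (d + 1) := by
      calc τ ^ (d + 2) = τ ^ (d + 1) * τ := by ring
        _ ≤ t ^ (d + 1) * 1 := by
          apply mul_le_mul (pow_le_pow_left₀ hτ.le hτt _) (hτt.trans ht1) hτ.le (by positivity)
        _ = t ^ (d + 1) := mul_one _
    calc t ^ 2 * C₂ * (τ ^ (d + 2) * h) ≤ 1 * C₂ * (t ^ (d + 1) * 1) := by gcongr
      _ = C₂ * t ^ (d + 1) := by ring
  have e2 : t ^ 2 * (C₂ / t ^ d / h) ≤ C₂ / (τ ^ (d + 2) * h) := by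
    rw [div_div, ← mul_div_assoc, div_le_div_iff₀ (by positivity) (by positivity)]
    have hp1 : τ ^ (d + 2) ≤ t ^ d := by
      calc τ ^ (d + 2) = τ ^ d * τ ^ 2 := by ring
        _ ≤ t ^ d * 1 := by
          apply mul_le_mul (pow_le_pow_left₀ hτ.le hτt _)
            (pow_le_one₀ hτ.le (hτt.trans ht1)) (by positivity) (by positivity)
        _ = t ^ d := mul_one _
    calc t ^ 2 * C₂ * (τ ^ (d + 2) * h) ≤ 1 * C₂ * (t ^ d * h) := by gcongr
      _ = C₂ * (t ^ d * h) := by ring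
  rw [h2, abs_mul, abs_of_nonneg (sq_nonneg t)]
  calc t ^ 2 * |∫ x in ball (0 : V d) 2, chh h x * fderiv ℝ φ (zp x) (bv a) * nsq (G x)|
      ≤ t ^ 2 * (C₁ * (C₂ / t ^ (d + 1) * Ez G h Z + C₂ / t ^ d / h * In G h Z)) :=
        mul_le_mul_of_nonneg_left h1 (sq_nonneg t)
    _ = C₁ * (t ^ 2 * (C₂ / t ^ (d + 1)) * Ez G h Z + t ^ 2 * (C₂ / t ^ d / h) * In G h Z) := by
        ring
    _ ≤ C₁ * (C₂ / (τ ^ (d + 2) * h) * Ez G h Z + C₂ / (τ ^ (d + 2) * h) * In G h Z) := by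
        gcongr
    _ = C₁ * C₂ / (τ ^ (d + 2) * h) * (Ez G h Z + In G h Z) := by ring

end Pool.Agent.H53.AN
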