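import Pool.Agent.H22.AN.TB3
import Pool.Agent.H80.AN.TargetsA

/-! Taylor expansion of the moments (row TAY of the board allh, helper53). -/

set_option autoImplicit false

namespace Pool.Agent.H53.AN

open MeasureTheory Metric Set Filter Topology Pool.Agent.H87.SN Pool.Agent.H87.SH Pool.Agent.H87.AX
open Pool.Agent.H22.AN
open scoped ContDiff RealInnerProductSpace ENNReal

theorem tay_split {d : ℕ} (x : E (d + 2)) : ‖x‖ ^ 2 = rho x ^ 2 + ‖zp x‖ ^ 2 := by
  have h1 : rho x ^ 2 = x 0 ^ 2 + x 1 ^ 2 := by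
    unfold rho
    rw [Real.sq_sqrt (by positivity)]
  rw [h1, EuclideanSpace.norm_sq_eq, EuclideanSpace.norm_sq_eq, Fin.sum_univ_succ,
    Fin.sum_univ_succ]
  simp only [Real.norm_eq_abs, sq_abs]
  show x 0 ^ 2 + (x 1 ^ 2 + ∑ i : Fin d, x i.succ.succ ^ 2) =
    x 0 ^ 2 + x 1 ^ 2 + ∑ i : Fin d, x i.succ.succ ^ 2
  rw [← add_assoc]

theorem tay_rho_cont {d : ℕ} : Continuous (fun x : E (d + 2) => rho x) := by
  unfold rho
  fun_prop

theorem tay_zp_cont {d : ℕ} : Continuous (fun x : E (d + 2) => zp x) := by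
  unfold zp
  exact (PiLp.continuous_toLp 2 _).comp (by fun_prop)

theorem tay_xj {d : ℕ} (j : Fin (d + 2)) (hj : (j : ℕ) < 2) (x : E (d + 2)) : |x j| ≤ rho x := by
  unfold rho
  apply Real.abs_le_sqrt
  rcases (by omega : (j : ℕ) = 0 ∨ (j : ℕ) = 1) with h | h
  · have : j = 0 := Fin.ext h
    subst this
    nlinarith [sq_nonneg (x 1)]
  · have : j = 1 := Fin.ext (by rw [h]; rfl)
    subst this
    nlinarith [sq_nonneg (x 0)]

theorem tay_nsq_nonneg {d m : ℕ} (L : V d →L[ℝ] E m) : 0 ≤ nsq L :=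
  Finset.sum_nonneg (fun _ _ => sq_nonneg _)

/-- the Cauchy-Schwarz inequality -/
theorem tay_cs (hMUF : T_MUF) {d m : ℕ} {G : V d → V d →L[ℝ] E m} {Λ : ℝ} (hG : GD Λ G) :
    ∫ x in ball (0 : V d) 1, rho x * nsq (G x) ≤ Real.sqrt (Λ * V2 G 1) ∧
    IntegrableOn (fun x => rho x * nsq (G x)) (ball (0 : V d) 1) := by
  obtain ⟨-, -, -, hI, hB, -⟩ := hMUF d m G hG.memG
  have hsub : ball (0 : V d) 1 ⊆ ball 0 2 := ball_subset_ball (by norm_num)
  have hrho : ∀ x ∈ ball (0 : V d) 1, rho x ≤ 1 := by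
    intro x hx
    have h1 := tay_split x
    rw [mem_ball_zero_iff] at hx
    have h2 : rho x ^ 2 ≤ 1 ^ 2 := by
      have h3 : ‖x‖ ^ 2 ≤ 1 ^ 2 := pow_le_pow_left₀ (norm_nonneg _) hx.le 2
      nlinarith [sq_nonneg ‖zp x‖]
    exact (sq_le_sq₀ (Real.sqrt_nonneg _) (by norm_num)).1 h2
  have i0 : IntegrableOn (fun x => nsq (G x)) (ball (0 : V d) 1) := (hI _ measurableSet_ball hsub).1
  have i1 : IntegrableOn (fun x => rho x * nsq (G x)) (ball (0 : V d) 1) :=
    (hB (fun x => rho x) _ 1 tay_rho_cont.measurable measurableSet_ball hsub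
      (fun x hx => ⟨Real.sqrt_nonneg _, hrho x hx⟩)).1
  have i2 : IntegrableOn (fun x => rho x ^ 2 * nsq (G x)) (ball (0 : V d) 1) :=
    (hB (fun x => rho x ^ 2) _ 1 (tay_rho_cont.pow 2).measurable measurableSet_ball hsub
      (fun x hx => ⟨sq_nonneg _, pow_le_one₀ (Real.sqrt_nonneg _) (hrho x hx)⟩)).1
  refine ⟨?_, i1⟩
  have hM : ∫ x in ball (0 : V d) 1, nsq (G x) ≤ Λ := by
    have h1 := hG.den 0 1 one_pos hsub
    rw [(hI _ measurableSet_ball hsub).2] at h1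
    simpa using h1
  have hV0 : 0 ≤ V2 G 1 := integral_nonneg (fun x => mul_nonneg (sq_nonneg _) (tay_nsq_nonneg _))
  have hdis := discrim_le_zero (a := ∫ x in ball (0 : V d) 1, nsq (G x))
    (b := -(2 * ∫ x in ball (0 : V d) 1, rho x * nsq (G x))) (c := V2 G 1) (fun s => by
      have h1 : (∫ x in ball (0 : V d) 1, nsq (G x)) * (s * s) +
          -(2 * ∫ x in ball (0 : V d) 1, rho x * nsq (G x)) * s + V2 G 1 =
          ∫ x in ball (0 : V d) 1, (s - rho x) ^ 2 * nsq (G x) := by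
        have h2 : ∀ x : V d, (s - rho x) ^ 2 * nsq (G x) =
            (s * s) * nsq (G x) + (-(2 * s)) * (rho x * nsq (G x)) + rho x ^ 2 * nsq (G x) := by
          intro x; ring
        simp_rw [h2]
        have j1 : IntegrableOn (fun x => (s * s) * nsq (G x)) (ball (0 : V d) 1) :=
          i0.const_mul (s * s)
        have j2 : IntegrableOn (fun x => (-(2 * s)) * (rho x * nsq (G x))) (ball (0 : V d) 1) :=
          i1.const_mul (-(2 * s))
        have j3 : IntegrableOn (fun x => (s * s) * nsq (G x) + (-(2 * s)) * (rho x * nsq (G x)))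
          (ball (0 : V d) 1) := j1.add j2
        rw [integral_add j3 i2, integral_add j1 j2, integral_const_mul, integral_const_mul]
        unfold V2
        ring
      rw [h1]
      exact integral_nonneg (fun x => mul_nonneg (sq_nonneg _) (tay_nsq_nonneg _)))
  unfold discrim at hdis
  have h3 : (∫ x in ball (0 : V d) 1, rho x * nsq (G x)) ^ 2 ≤ Λ * V2 G 1 := by
    have h4 : (∫ x in ball (0 : V d) 1, nsq (G x)) * V2 G 1 ≤ Λ * V2 G 1 :=
      mul_le_mul_of_nonneg_right hM hV0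
    nlinarith
  exact (le_abs_self _).trans (Real.abs_le_sqrt h3)

theorem tay_key (hMUF : T_MUF) {d m : ℕ} {G : V d → V d →L[ℝ] E m} {Λ : ℝ} (hG : GD Λ G) {h : ℝ}
    (hh1 : h ≤ 1 / 8) (hcc : Continuous (chh (d := d) h))
    (hc1 : ∀ x : V d, 0 ≤ chh h x ∧ chh h x ≤ 1) (hc0 : ∀ x : V d, 2 * h ≤ rho x → chh h x = 0)
    (j : Fin (d + 2)) (hj : (j : ℕ) < 2) (g : E d → ℝ) (hgc : Continuous g) (B : ℝ)
    (hB : ∀ z, |g z| ≤ B) (hg0 : ∀ z, 5 / 16 ≤ ‖z‖ → g z = 0) :
    IntegrableOn (fun x => chh h x * g (zp x) * x j * nsq (G x)) (ball (0 : V d) 2) ∧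
    |∫ x in ball (0 : V d) 2, chh h x * g (zp x) * x j * nsq (G x)| ≤
      B * Real.sqrt (Λ * V2 G 1) := by
  obtain ⟨-, -, -, hI, -, -⟩ := hMUF d m G hG.memG
  have hB0 : 0 ≤ B := (abs_nonneg _).trans (hB 0)
  have i0 : IntegrableOn (fun x => nsq (G x)) (ball (0 : V d) 2) :=
    (hI _ measurableSet_ball subset_rfl).1
  obtain ⟨hcs, ics⟩ := tay_cs hMUF hG
  have hcont : Continuous (fun x : V d => chh h x * g (zp x) * x j) :=
    (hcc.mul (hgc.comp tay_zp_cont)).mul (by fun_prop)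
  have hpt : ∀ x : V d, ‖chh h x * g (zp x) * x j * nsq (G x)‖ ≤
      (ball (0 : V d) 1).indicator (fun x => B * (rho x * nsq (G x))) x := by
    intro x
    by_cases hx : x ∈ ball (0 : V d) 1
    · rw [Set.indicator_of_mem hx, norm_mul, norm_mul, norm_mul, Real.norm_eq_abs, Real.norm_eq_abs,
        Real.norm_eq_abs, Real.norm_eq_abs, abs_of_nonneg (hc1 x).1,
        abs_of_nonneg (tay_nsq_nonneg _)]
      have h1 := (hc1 x).2
      have h2 := hB (zp x)
      have h3 := tay_xj j hj x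
      have h4 := tay_nsq_nonneg (G x)
      have h5 := (hc1 x).1
      calc chh h x * |g (zp x)| * |x j| * nsq (G x) ≤ 1 * B * rho x * nsq (G x) := by gcongr
        _ = B * (rho x * nsq (G x)) := by ring
    · rw [Set.indicator_of_notMem hx]
      have h0 : chh h x * g (zp x) = 0 := by
        by_cases h1 : 2 * h ≤ rho x
        · rw [hc0 x h1, zero_mul]
        · rw [hg0 (zp x) ?_, mul_zero]
          push Not at h1
          have h2 := tay_split x
          have h3 : 1 ≤ ‖x‖ := by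
            rw [mem_ball_zero_iff] at hx
            exact not_lt.1 hx
          have h4 : rho x ≤ 1 / 4 := by linarith
          have h5 : 0 ≤ rho x := Real.sqrt_nonneg _
          have h6 : rho x ^ 2 ≤ (1 / 4) ^ 2 := pow_le_pow_left₀ h5 h4 2
          have h7 : 1 ≤ ‖x‖ ^ 2 := one_le_pow₀ h3
          have h8 : (5 / 16 : ℝ) ^ 2 ≤ ‖zp x‖ ^ 2 := by nlinarith
          exact (sq_le_sq₀ (by norm_num) (norm_nonneg _)).1 h8
      rw [h0]
      simp
  have hint : IntegrableOn (fun x => (ball (0 : V d) 1).indicator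
      (fun x => B * (rho x * nsq (G x))) x) (ball (0 : V d) 2) := by
    have h1 : IntegrableOn (fun x => B * (rho x * nsq (G x))) (ball (0 : V d) 1) :=
      ics.const_mul B
    exact ((integrable_indicator_iff measurableSet_ball).2 h1).integrableOn
  have hmeas : AEStronglyMeasurable (fun x => chh h x * g (zp x) * x j * nsq (G x))
      (volume.restrict (ball (0 : V d) 2)) :=
    hcont.aestronglyMeasurable.mul i0.aestronglyMeasurable
  refine ⟨Integrable.mono' hint hmeas (Filter.Eventually.of_forall hpt), ?_⟩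
  calc |∫ x in ball (0 : V d) 2, chh h x * g (zp x) * x j * nsq (G x)|
      ≤ ∫ x in ball (0 : V d) 2, (ball (0 : V d) 1).indicator
        (fun x => B * (rho x * nsq (G x))) x :=
        norm_integral_le_of_norm_le hint (Filter.Eventually.of_forall hpt)
    _ = ∫ x in ball (0 : V d) 1, B * (rho x * nsq (G x)) := by
        rw [integral_indicator measurableSet_ball, Measure.restrict_restrict measurableSet_ball,
          Set.inter_eq_left.2 (ball_subset_ball (by norm_num))]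
    _ = B * ∫ x in ball (0 : V d) 1, rho x * nsq (G x) := integral_const_mul _ _
    _ ≤ B * Real.sqrt (Λ * V2 G 1) := mul_le_mul_of_nonneg_left hcs hB0

theorem tay_sum {d : ℕ} (L : E d →L[ℝ] ℝ) (z : E d) : ∑ a : Fin d, z a * L (bv a) = L z := by
  have h1 : z = ∑ a : Fin d, z a • (bv a : E d) := by
    have h2 := (EuclideanSpace.basisFun (Fin d) ℝ).sum_repr z
    simpa [bv, EuclideanSpace.basisFun_apply] using h2.symm
  conv_rhs => rw [h1]
  rw [map_sum]
  simp [map_smul, smul_eq_mul]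

theorem pf_TAY (hBWF : T_BWF) (hCHF : T_CHF) (hMUF : T_MUF) : T_TAY := by
  intro d
  obtain ⟨-, C₁, hC₁, H1⟩ := hBWF d
  obtain ⟨C₀, hC₀, H0⟩ := hCHF
  refine ⟨(d + 1) * (C₁ * 16 ^ (d + 2)), by positivity, ?_⟩
  intro m G Λ hG h hh0 hh1 j hj
  obtain ⟨hc1, hc2, -, hc4, -⟩ := H0 d h hh0
  have hbase : ∀ k : ℕ, C₁ / (1 / 16) ^ k = C₁ * 16 ^ k := by
    intro k
    rw [one_div, inv_pow, div_inv_eq_mul]
  have h16 : (16 : ℝ) ^ d ≤ 16 ^ (d + 2) := pow_le_pow_right₀ (by norm_num) (by omega)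
  have h16' : (16 : ℝ) ^ (d + 1) ≤ 16 ^ (d + 2) := pow_le_pow_right₀ (by norm_num) (by omega)
  have hKey := fun (g : E d → ℝ) (hgc : Continuous g) (B : ℝ) (hB : ∀ z, |g z| ≤ B)
    (hg0 : ∀ z, 5 / 16 ≤ ‖z‖ → g z = 0) => tay_key hMUF hG hh1 hc1.continuous hc2 hc4 j hj g hgc B
      hB hg0
  -- the windows
  have hW : ∀ z₀ : E d, ‖z₀‖ ≤ 1 / 4 → Continuous (bw z₀ (1 / 16)) ∧
      (∀ z, |bw z₀ (1 / 16) z| ≤ C₁ * 16 ^ d) ∧ (∀ z, 5 / 16 ≤ ‖z‖ → bw z₀ (1 / 16) z = 0) := by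
    intro z₀ hz₀
    obtain ⟨w1, w2, w3, -⟩ := H1 z₀ (1 / 16) (by norm_num)
    refine ⟨w1.continuous, fun z => ?_, fun z hz => w3 z ?_⟩
    · rw [abs_of_nonneg (w2 z).1, ← hbase]
      exact (w2 z).2
    · have := norm_sub_norm_le z z₀
      linarith
  obtain ⟨w1, w2, w3, w4, w5, w6, w7, w8⟩ := H1 (0 : E d) (1 / 16) (by norm_num)
  have hdc : Continuous (fderiv ℝ (bw (0 : E d) (1 / 16))) := w1.continuous_fderiv (by norm_num)
  have hd0 : ∀ z : E d, 5 / 16 ≤ ‖z‖ → fderiv ℝ (bw (0 : E d) (1 / 16)) z = 0 := by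
    intro z hz
    have h1 : bw (0 : E d) (1 / 16) =ᶠ[𝓝 z] fun _ => 0 := by
      have h2 : {z : E d | 1 / 16 < ‖z‖} ∈ 𝓝 z :=
        (isOpen_lt continuous_const continuous_norm).mem_nhds (by
          show (1 / 16 : ℝ) < ‖z‖
          linarith)
      filter_upwards [h2] with y hy
      exact w3 y (by simpa using (le_of_lt hy))
    rw [h1.fderiv_eq]
    simp
  have hbv : ∀ a : Fin d, ‖(bv a : E d)‖ = 1 := by
    intro a; unfold bv; simp
  have hF : ∀ a : Fin d, Continuous (fun z => fderiv ℝ (bw (0 : E d) (1 / 16)) z (bv a)) ∧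
      (∀ z, |fderiv ℝ (bw (0 : E d) (1 / 16)) z (bv a)| ≤ C₁ * 16 ^ (d + 1)) ∧
      (∀ z : E d, 5 / 16 ≤ ‖z‖ → fderiv ℝ (bw (0 : E d) (1 / 16)) z (bv a) = 0) := by
    intro a
    refine ⟨hdc.clm_apply continuous_const, fun z => ?_, fun z hz => by rw [hd0 z hz]; rfl⟩
    rw [← hbase, ← Real.norm_eq_abs]
    calc ‖fderiv ℝ (bw (0 : E d) (1 / 16)) z (bv a)‖
        ≤ ‖fderiv ℝ (bw (0 : E d) (1 / 16)) z‖ * ‖(bv a : E d)‖ := ContinuousLinearMap.le_opNorm _ _
      _ ≤ C₁ / (1 / 16) ^ (d + 1) := by rw [hbv, mul_one]; exact w5 z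
  set S : ℝ := Real.sqrt (Λ * V2 G 1) with hS
  have hS0 : 0 ≤ S := Real.sqrt_nonneg _
  set I : Fin d → ℝ := fun a => ∫ x in ball (0 : V d) 2,
    chh h x * fderiv ℝ (bw (0 : E d) (1 / 16)) (zp x) (bv a) * x j * nsq (G x) with hIdef
  have hIb : ∀ a, |I a| ≤ C₁ * 16 ^ (d + 1) * S := fun a =>
    (hKey _ (hF a).1 _ (hF a).2.1 (hF a).2.2).2
  refine ⟨WithLp.toLp 2 (fun a => - I a), ?_, ?_, ?_⟩
  · obtain ⟨u1, u2, u3⟩ := hW 0 (by simp)
    refine ((hKey _ u1 _ u2 u3).2).trans ?_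
    apply mul_le_mul_of_nonneg_right _ hS0
    have hd : (0 : ℝ) ≤ d := Nat.cast_nonneg d
    nlinarith [mul_le_mul_of_nonneg_left h16 hC₁.le, mul_nonneg hd
      (mul_nonneg hC₁.le (pow_nonneg (by norm_num : (0 : ℝ) ≤ 16) (d + 2)))]
  · have h1 : ‖(WithLp.toLp 2 (fun a => - I a) : E d)‖ ≤ ∑ a : Fin d, |I a| := by
      have h2 : (WithLp.toLp 2 (fun a => - I a) : E d) = ∑ a : Fin d, (- I a) • (bv a : E d) := by
        have h3 := (EuclideanSpace.basisFun (Fin d) ℝ).sum_repr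
          (WithLp.toLp 2 (fun a => - I a) : E d)
        simpa [bv, EuclideanSpace.basisFun_apply] using h3.symm
      rw [h2]
      refine (norm_sum_le _ _).trans (Finset.sum_le_sum (fun a _ => ?_))
      rw [norm_smul, hbv, mul_one, norm_neg, Real.norm_eq_abs]
    refine h1.trans ((Finset.sum_le_sum (fun a _ => hIb a)).trans ?_)
    rw [Finset.sum_const, Finset.card_univ, Fintype.card_fin, nsmul_eq_mul, ← mul_assoc]
    apply mul_le_mul_of_nonneg_right _ hS0
    have hd : (0 : ℝ) ≤ d := Nat.cast_nonneg d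
    have h3 := mul_le_mul_of_nonneg_left h16' hC₁.le
    exact mul_le_mul (by linarith) h3 (by positivity) (by positivity)
  · intro z₀ hz₀
    obtain ⟨u1, u2, u3⟩ := hW z₀ hz₀
    obtain ⟨v1, v2, v3⟩ := hW 0 (by simp)
    obtain ⟨-, -, -, -, -, -, -, t8⟩ := H1 z₀ (1 / 16) (by norm_num)
    have iu := (hKey _ u1 _ u2 u3).1
    have iv := (hKey _ v1 _ v2 v3).1
    have iF := fun a => (hKey _ (hF a).1 _ (hF a).2.1 (hF a).2.2).1
    have hg : |∫ x in ball (0 : V d) 2, chh h x * (bw z₀ (1 / 16) (zp x) - bw 0 (1 / 16) (zp x) +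
        fderiv ℝ (bw (0 : E d) (1 / 16)) (zp x) z₀) * x j * nsq (G x)| ≤
        C₁ * 16 ^ (d + 2) * ‖z₀‖ ^ 2 * S := by
      refine (hKey (fun z => bw z₀ (1 / 16) z - bw 0 (1 / 16) z +
        fderiv ℝ (bw (0 : E d) (1 / 16)) z z₀) ?_ _ ?_ ?_).2
      · exact (u1.sub v1).add (hdc.clm_apply continuous_const)
      · intro z
        rw [← hbase]
        exact t8 z
      · intro z hz
        rw [u3 z hz, v3 z hz, hd0 z hz]
        simp
    have hinner : ⟪(WithLp.toLp 2 (fun a => - I a) : E d), z₀⟫ = - ∫ x in ball (0 : V d) 2,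
        chh h x * fderiv ℝ (bw (0 : E d) (1 / 16)) (zp x) z₀ * x j * nsq (G x) := by
      have h1 : ⟪(WithLp.toLp 2 (fun a => - I a) : E d), z₀⟫ = ∑ a : Fin d, z₀ a * (- I a) := by
        rw [PiLp.inner_apply]
        refine Finset.sum_congr rfl (fun a _ => ?_)
        simp
      rw [h1]
      have h2 : ∀ x : V d, chh h x * fderiv ℝ (bw (0 : E d) (1 / 16)) (zp x) z₀ * x j * nsq (G x) =
          ∑ a : Fin d, z₀ a * (chh h x * fderiv ℝ (bw (0 : E d) (1 / 16)) (zp x) (bv a) * x j *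
            nsq (G x)) := by
        intro x
        rw [← tay_sum (fderiv ℝ (bw (0 : E d) (1 / 16)) (zp x)) z₀, Finset.mul_sum, Finset.sum_mul,
          Finset.sum_mul]
        refine Finset.sum_congr rfl (fun a _ => ?_)
        ring
      simp_rw [h2]
      rw [integral_finsetSum _ (fun a _ => (iF a).const_mul (z₀ a)), ← Finset.sum_neg_distrib]
      refine Finset.sum_congr rfl (fun a _ => ?_)
      rw [integral_const_mul]
      ring
    have hFz : IntegrableOn (fun x => chh h x * fderiv ℝ (bw (0 : E d) (1 / 16)) (zp x) z₀ * x j *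
        nsq (G x)) (ball (0 : V d) 2) := by
      refine (hKey (fun z => fderiv ℝ (bw (0 : E d) (1 / 16)) z z₀) (hdc.clm_apply continuous_const)
        (C₁ / (1 / 16) ^ (d + 1) * ‖z₀‖) (fun z => ?_) (fun z hz => by rw [hd0 z hz]; rfl)).1
      rw [← Real.norm_eq_abs]
      exact (ContinuousLinearMap.le_opNorm _ _).trans
        (mul_le_mul_of_nonneg_right (w5 z) (norm_nonneg _))
    have hsum : mo G h j z₀ (1 / 16) - mo G h j 0 (1 / 16) -
        ⟪(WithLp.toLp 2 (fun a => - I a) : E d), z₀⟫ =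
        ∫ x in ball (0 : V d) 2, chh h x * (bw z₀ (1 / 16) (zp x) - bw 0 (1 / 16) (zp x) +
        fderiv ℝ (bw (0 : E d) (1 / 16)) (zp x) z₀) * x j * nsq (G x) := by
      rw [hinner]
      unfold mo
      have iuv : IntegrableOn (fun x => chh h x * bw z₀ (1 / 16) (zp x) * x j * nsq (G x) -
          chh h x * bw 0 (1 / 16) (zp x) * x j * nsq (G x)) (ball (0 : V d) 2) := iu.sub iv
      rw [sub_neg_eq_add, ← integral_sub iu iv, ← integral_add iuv hFz]
      refine integral_congr_ae (Filter.Eventually.of_forall (fun x => ?_))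
      show chh h x * bw z₀ (1 / 16) (zp x) * x j * nsq (G x) -
          chh h x * bw 0 (1 / 16) (zp x) * x j * nsq (G x) +
          chh h x * fderiv ℝ (bw (0 : E d) (1 / 16)) (zp x) z₀ * x j * nsq (G x) =
        chh h x * (bw z₀ (1 / 16) (zp x) - bw 0 (1 / 16) (zp x) +
          fderiv ℝ (bw (0 : E d) (1 / 16)) (zp x) z₀) * x j * nsq (G x)
      ring
    rw [hsum]
    refine hg.trans ?_
    have hd : (0 : ℝ) ≤ d := Nat.cast_nonneg d
    have h3 : 0 ≤ C₁ * 16 ^ (d + 2) * ‖z₀‖ ^ 2 * S := by positivity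
    calc C₁ * 16 ^ (d + 2) * ‖z₀‖ ^ 2 * S ≤ (d + 1) * (C₁ * 16 ^ (d + 2) * ‖z₀‖ ^ 2 * S) := by
          nlinarith
      _ = (d + 1) * (C₁ * 16 ^ (d + 2)) * ‖z₀‖ ^ 2 * S := by ring

end Pool.Agent.H53.AN
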